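import Mathlib

set_option autoImplicit false

namespace Pool.Agent.Results.MP_b69f9e_co.BinaryDisproof

/-- For the string `s[1..n]` (the letters `s 1, ..., s n`): the substring `s[i..j]` occurs at
position `p`, that is `s[p..p+(j-i)] = s[i..j]`. -/
def Occurs {α : Type*} (n : ℕ) (s : ℕ → α) (i j p : ℕ) : Prop :=
  1 ≤ p ∧ p + (j - i) ≤ n ∧ ∀ t, t ≤ j - i → s (p + t) = s (i + t)

/-- `s[i..j]` is a right closed repeat of the string `s[1..n]`. -/
def RightClosedRepeat {α : Type*} (n : ℕ) (s : ℕ → α) (i j : ℕ) : Prop :=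
  1 ≤ i ∧ i ≤ j ∧ j ≤ n ∧ ∃ i' j' : ℕ, i < i' ∧ j' = i' + (j - i) ∧ Occurs n s i j i' ∧
    (∀ p, i < p → p < i' → ¬ Occurs n s i j p) ∧ (j' = n ∨ s (j + 1) ≠ s (j' + 1))

/-- Internal 0-indexed variant (only those ended by a mismatch). -/
def Rep {α : Type*} (n : ℕ) (f : ℕ → α) (i l : ℕ) : Prop :=
  0 < l ∧ ∃ i', i < i' ∧ i' + l < n ∧ (∀ t, t < l → f (i + t) = f (i' + t)) ∧
    f (i + l) ≠ f (i' + l) ∧ ∀ p, i < p → p < i' → ¬ ∀ t, t < l → f (i + t) = f (p + t)

theorem Rep.toRCR {α : Type*} {n : ℕ} {f : ℕ → α} {i l : ℕ} (h : Rep n f i l) :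
    RightClosedRepeat n (fun x => f (x - 1)) (i + 1) (i + l) := by
  obtain ⟨hl, i', hi, hn, heq, hne, hno⟩ := h
  refine ⟨by omega, by omega, by omega, i' + 1, i' + l, by omega, by omega, ⟨by omega, by omega, ?_⟩,
    ?_, Or.inr ?_⟩
  · intro t ht
    have := heq t (by omega)
    have e1 : i' + 1 + t - 1 = i' + t := by omega
    have e2 : i + 1 + t - 1 = i + t := by omega
    simp only [e1, e2]
    exact this.symm
  · intro p hp1 hp2 ⟨h1, h2, h3⟩
    refine hno (p - 1) (by omega) (by omega) ?_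
    intro t ht
    have := h3 t (by omega)
    have e1 : p + t - 1 = p - 1 + t := by omega
    have e2 : i + 1 + t - 1 = i + t := by omega
    simp only [e1, e2] at this
    exact this.symm
  · have e1 : i + l + 1 - 1 = i + l := by omega
    have e2 : i' + l + 1 - 1 = i' + l := by omega
    simp only [e1, e2]
    exact hne

/-- The image of `f` under the `b`-uniform morphism `Φ`. -/
def enc {α β : Type*} (b : ℕ) (Φ : α → ℕ → β) (f : ℕ → α) (x : ℕ) : β := Φ (f (x / b)) (x % b)

theorem enc_add {α β : Type*} {b : ℕ} (Φ : α → ℕ → β) (f : ℕ → α) (I x : ℕ)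
    (hx : x < b) : enc b Φ f (I * b + x) = Φ (f I) x := by
  unfold enc
  have hb : 0 < b := by omega
  have h1 : (I * b + x) / b = I := by
    rw [Nat.add_comm, Nat.add_mul_div_right _ _ hb, Nat.div_eq_of_lt hx, Nat.zero_add]
  have h2 : (I * b + x) % b = x := by
    rw [Nat.add_comm, Nat.add_mul_mod_self_right, Nat.mod_eq_of_lt hx]
  rw [h1, h2]

/-- Lifting of repeats through a uniform morphism with a synchronising marker. -/
theorem lift {β : Type*} (K b μ O : ℕ) (Φ : ℕ → ℕ → β) (M : ℕ → β) (hμ : 0 < μ) (hO : O < b)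
    (hdiff : ∀ a a', a < K → a' < K → a ≠ a' →
      ∃ d, μ ≤ d ∧ d < b ∧ (∀ t, t < d → Φ a t = Φ a' t) ∧ Φ a d ≠ Φ a' d)
    (hmark : ∀ a, a < K → ∀ t, t < μ → Φ a t = M t)
    (hsync : ∀ a a' o, a < K → a' < K → 0 < o → o < b →
      ∃ t, t < μ ∧ M t ≠ (if o + t < b then Φ a (o + t) else Φ a' (o + t - b)))
    (hsep : ∀ a a', a < K → a' < K → (∀ x, O ≤ x → x < b → Φ a x = Φ a' x) → a = a')
    (f : ℕ → ℕ) (hf : ∀ x, f x < K) (n i l o : ℕ) (ho : o ≤ O) (h : Rep n f i l) :
    ∃ y, b * l ≤ y + o ∧ y + o < b * (l + 1) ∧ Rep (n * b) (enc b Φ f) (i * b + o) y := by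
  obtain ⟨hl, i', hi, hn, heq, hne, hno⟩ := h
  obtain ⟨d, hd1, hd2, hd3, hd4⟩ := hdiff _ _ (hf (i + l)) (hf (i' + l)) hne
  have hb : 0 < b := by omega
  have hbl : b ≤ b * l := Nat.le_mul_of_pos_right b hl
  refine ⟨b * l + d - o, by omega, by rw [Nat.mul_add]; omega, by omega, i' * b + o, ?_, ?_, ?_, ?_, ?_⟩
  · have : i * b < i' * b := Nat.mul_lt_mul_of_pos_right hi hb
    omega
  · have h1 : (i' + l + 1) * b ≤ n * b := Nat.mul_le_mul_right b (by omega)
    have h2 : (i' + l + 1) * b = i' * b + b * l + b := by ring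
    omega
  · intro t ht
    -- position `x = o + t < b * l + d`
    have hx : o + t < b * l + d := by omega
    have key : ∀ J, enc b Φ f (J * b + o + t) = Φ (f (J + (o + t) / b)) ((o + t) % b) := by
      intro J
      have : J * b + o + t = (J + (o + t) / b) * b + (o + t) % b := by
        have := Nat.div_add_mod (o + t) b
        rw [Nat.add_mul, Nat.mul_comm ((o + t) / b) b]
        omega
      rw [this, enc_add _ _ _ _ (Nat.mod_lt _ hb)]
    rw [key, key]
    by_cases hlt : (o + t) / b < l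
    · rw [heq _ hlt]
    · have hle : (o + t) / b ≤ l := by
        have : (o + t) / b < l + 1 := by
          rw [Nat.div_lt_iff_lt_mul hb]
          have : (l + 1) * b = b * l + b := by ring
          omega
        omega
      have hel : (o + t) / b = l := by omega
      have hmod : (o + t) % b < d := by
        have := Nat.div_add_mod (o + t) b
        rw [hel] at this
        omega
      rw [hel]
      exact hd3 _ hmod
  · have e1 : i * b + o + (b * l + d - o) = (i + l) * b + d := by
      have : (i + l) * b = i * b + b * l := by ring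
      omega
    have e2 : i' * b + o + (b * l + d - o) = (i' + l) * b + d := by
      have : (i' + l) * b = i' * b + b * l := by ring
      omega
    rw [e1, e2, enc_add _ _ _ _ hd2, enc_add _ _ _ _ hd2]
    exact hd4
  · intro p hp1 hp2 hp
    -- the position of the marker
    have hp' : ∀ x, o ≤ x → x < b * l + d → enc b Φ f (i * b + x) = enc b Φ f (p + (x - o)) := by
      intro x hx1 hx2
      have := hp (x - o) (by omega)
      have e : i * b + o + (x - o) = i * b + x := by omega
      rw [e] at this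
      exact this
    -- write p + b - o = q * b + r
    obtain ⟨q, r, hr, hqr⟩ : ∃ q r, r < b ∧ p + (b - o) = q * b + r := by
      refine ⟨(p + (b - o)) / b, (p + (b - o)) % b, Nat.mod_lt _ hb, ?_⟩
      have := Nat.div_add_mod (p + (b - o)) b
      rw [Nat.mul_comm]
      exact this.symm
    have hr0 : r = 0 := by
      by_contra hr0
      obtain ⟨t, ht1, ht2⟩ := hsync (f q) (f (q + 1)) r (hf _) (hf _) (by omega) hr
      apply ht2
      have h1 := hp' (b + t) (by omega) (by omega)
      have e0 : i * b + (b + t) = (i + 1) * b + t := by ring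
      rw [e0, enc_add _ _ _ _ (by omega : t < b), hmark _ (hf _) t ht1] at h1
      rw [h1]
      have e1 : p + (b + t - o) = q * b + r + t := by omega
      rw [e1]
      split_ifs with hc
      · rw [Nat.add_assoc, enc_add _ _ _ _ hc]
      · have e2 : q * b + r + t = (q + 1) * b + (r + t - b) := by
          have : (q + 1) * b = q * b + b := by ring
          omega
        rw [e2, enc_add _ _ _ _ (by omega)]
    subst hr0
    -- p = (q-1) * b + o
    have hq : 0 < q := by
      rcases Nat.eq_zero_or_pos q with h0 | h0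
      · subst h0
        omega
      · exact h0
    obtain ⟨I, rfl⟩ : ∃ I, q = I + 1 := ⟨q - 1, by omega⟩
    have hpI : p = I * b + o := by
      have : (I + 1) * b = I * b + b := by ring
      omega
    subst hpI
    have hI1 : i < I := by
      by_contra hcon
      have : I * b ≤ i * b := Nat.mul_le_mul_right b (by omega)
      omega
    have hI2 : I < i' := by
      by_contra hcon
      have : i' * b ≤ I * b := Nat.mul_le_mul_right b (by omega)
      omega
    refine hno I hI1 hI2 ?_
    intro t ht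
    apply hsep _ _ (hf _) (hf _)
    intro x hx1 hx2
    have hbt : b * t + b ≤ b * l := by
      have : b * (t + 1) ≤ b * l := Nat.mul_le_mul_left b ht
      rw [Nat.mul_add] at this
      omega
    have := hp' (b * t + x) (by omega) (by omega)
    have e1 : i * b + (b * t + x) = (i + t) * b + x := by ring
    have e2 : I * b + o + (b * t + x - o) = (I + t) * b + x := by
      have : (I + t) * b = I * b + b * t := by ring
      omega
    rw [e1, e2, enc_add _ _ _ _ hx2, enc_add _ _ _ _ hx2] at this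
    exact this

/-- The block morphism: `w` rows of length `w`; row `0` is `0 1 ... (w-1)`, and row `r ≥ 1` is
`0 1 ... (r-1)` padded with the letter `w + c`. -/
def Blk (w : ℕ) (c x : ℕ) : ℕ := if x / w = 0 ∨ x % w < x / w then x % w else w + c

theorem Blk_lt {w K c x : ℕ} (hw : 0 < w) (hc : c < K) : Blk w c x < w + K := by
  unfold Blk
  split_ifs
  · have := Nat.mod_lt x hw
    omega
  · omega

theorem Blk_row0 {w : ℕ} (c x : ℕ) (hx : x < w) : Blk w c x = x := by
  unfold Blk
  rw [if_pos (Or.inl (Nat.div_eq_of_lt hx)), Nat.mod_eq_of_lt hx]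

theorem div_mod_row {w r t : ℕ} (ht : t < w) : (r * w + t) / w = r ∧ (r * w + t) % w = t := by
  have hw : 0 < w := by omega
  constructor
  · rw [Nat.add_comm, Nat.add_mul_div_right _ _ hw, Nat.div_eq_of_lt ht, Nat.zero_add]
  · rw [Nat.add_comm, Nat.add_mul_mod_self_right, Nat.mod_eq_of_lt ht]

theorem Blk_row {w : ℕ} (c r t : ℕ) (hr : 0 < r) (ht : t < w) :
    Blk w c (r * w + t) = if t < r then t else w + c := by
  unfold Blk
  obtain ⟨h1, h2⟩ := div_mod_row (r := r) ht
  rw [h1, h2]
  have : (r = 0 ∨ t < r) ↔ t < r := by omega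
  simp only [this]

/-- The letter `q < w` occurs in a block only in column `q`, and in row `0` or rows `> q`. -/
theorem Blk_eq {w c x q : ℕ} (hq : q < w) (h : Blk w c x = q) :
    x % w = q ∧ (x / w = 0 ∨ q < x / w) := by
  unfold Blk at h
  split_ifs at h with h1
  · refine ⟨h, ?_⟩
    rcases h1 with h1 | h1
    · exact Or.inl h1
    · right
      omega
  · omega

/-- Repeats of a string sitting inside a single block. -/
theorem blockRep (w : ℕ) (f : ℕ → ℕ) (n I p q : ℕ) (hI : I < n) (hpq : p ≤ q) (hq : q + 1 < w) :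
    Rep (n * (w * w)) (enc (w * w) (Blk w) f) (I * (w * w) + p) (q + 1 - p) := by
  have hw : 0 < w := by omega
  have hr : (q + 1) * w + w ≤ w * w := by
    have : (q + 1 + 1) * w ≤ w * w := Nat.mul_le_mul_right w (by omega)
    have e : (q + 1 + 1) * w = (q + 1) * w + w := by ring
    omega
  have hw2 : w ≤ w * w := Nat.le_mul_of_pos_right w hw
  refine ⟨by omega, I * (w * w) + ((q + 1) * w + p), ?_, ?_, ?_, ?_, ?_⟩
  · have : 0 < (q + 1) * w := Nat.mul_pos (by omega) hw
    omega
  · have h1 : (I + 1) * (w * w) ≤ n * (w * w) := Nat.mul_le_mul_right _ (by omega)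
    have h2 : (I + 1) * (w * w) = I * (w * w) + w * w := by ring
    omega
  · intro t ht
    rw [Nat.add_assoc, enc_add _ _ _ _ (by omega), Nat.add_assoc, enc_add _ _ _ _ (by omega),
      Blk_row0 _ _ (by omega), Nat.add_assoc, Blk_row _ _ _ (by omega) (by omega), if_pos (by omega)]
  · have e1 : I * (w * w) + p + (q + 1 - p) = I * (w * w) + (q + 1) := by omega
    have e2 : I * (w * w) + ((q + 1) * w + p) + (q + 1 - p) = I * (w * w) + ((q + 1) * w + (q + 1)) := by
      omega
    rw [e1, e2, enc_add _ _ _ _ (by omega), enc_add _ _ _ _ (by omega),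
      Blk_row0 _ _ (by omega), Blk_row _ _ _ (by omega) (by omega), if_neg (by omega)]
    omega
  · intro x hx1 hx2 hx
    -- the letter `q` occurs at position `x + (q - p)`
    have h := hx (q - p) (by omega)
    have e1 : I * (w * w) + p + (q - p) = I * (w * w) + q := by omega
    rw [e1, enc_add _ _ _ _ (by omega), Blk_row0 _ _ (by omega)] at h
    obtain ⟨z, hz1, hz2, hz3⟩ : ∃ z, x + (q - p) = I * (w * w) + z ∧ q < z ∧ z < (q + 1) * w + q :=
      ⟨x + (q - p) - I * (w * w), by omega, by omega, by omega⟩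
    rw [hz1, enc_add _ _ _ _ (by omega)] at h
    obtain ⟨h1, h2⟩ := Blk_eq (by omega) h.symm
    have hz := Nat.div_add_mod z w
    rw [h1] at hz
    rcases h2 with h2 | h2
    · rw [h2] at hz
      omega
    · have : (q + 1) * w ≤ (z / w) * w := Nat.mul_le_mul_right w h2
      rw [Nat.mul_comm (z / w) w] at this
      omega

theorem lift_Blk (K w : ℕ) (hw : 2 ≤ w) (f : ℕ → ℕ) (hf : ∀ x, f x < K) (n i l o : ℕ)
    (ho : o < w * w) (h : Rep n f i l) :
    ∃ y, (w * w) * l ≤ y + o ∧ y + o < (w * w) * (l + 1) ∧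
      Rep (n * (w * w)) (enc (w * w) (Blk w) f) (i * (w * w) + o) y := by
  have hw2 : 2 * w ≤ w * w := Nat.mul_le_mul_right w hw
  refine lift K (w * w) w (w * w - 1) (Blk w) (fun t => t) (by omega) (by omega) ?_ ?_ ?_ ?_ f hf n i l o
    (by omega) h
  · intro a a' _ _ hne
    refine ⟨1 * w + 1, by omega, by omega, ?_, ?_⟩
    · intro t ht
      by_cases htw : t < w
      · rw [Blk_row0 _ _ htw, Blk_row0 _ _ htw]
      · have : t = 1 * w + 0 := by omega
        rw [this, Blk_row _ _ _ (by omega) (by omega), Blk_row _ _ _ (by omega) (by omega),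
          if_pos (by omega), if_pos (by omega)]
    · rw [Blk_row _ _ _ (by omega) (by omega), Blk_row _ _ _ (by omega) (by omega),
          if_neg (by omega), if_neg (by omega)]
      omega
  · intro a _ t ht
    exact Blk_row0 _ _ ht
  · intro a a' o _ _ ho1 ho2
    -- use the last letter of the marker
    refine ⟨w - 1, by omega, ?_⟩
    intro hcon
    split_ifs at hcon with hc
    · obtain ⟨h1, h2⟩ := Blk_eq (by omega) hcon.symm
      rcases h2 with h2 | h2
      · have h3 := Nat.div_add_mod (o + (w - 1)) w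
        rw [h1, h2] at h3
        omega
      · have h3 : (o + (w - 1)) / w < w := by
          rw [Nat.div_lt_iff_lt_mul (by omega)]
          exact hc
        omega
    · have hsmall : o + (w - 1) - w * w < w := by omega
      rw [Blk_row0 _ _ hsmall] at hcon
      omega
  · intro a a' _ _ hcon
    have := hcon ((w - 1) * w + (w - 1)) (by
      have : (w - 1) * w + w = w * w := by
        have : (w - 1 + 1) * w = w * w := by rw [Nat.sub_add_cancel (by omega)]
        rw [← this]; ring
      omega) (by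
      have : (w - 1) * w + w = w * w := by
        have : (w - 1 + 1) * w = w * w := by rw [Nat.sub_add_cancel (by omega)]
        rw [← this]; ring
      omega)
    rw [Blk_row _ _ _ (by omega) (by omega), Blk_row _ _ _ (by omega) (by omega),
      if_neg (by omega), if_neg (by omega)] at this
    omega

/-- A string with `n` letters below `K`, a set `P` of at most `k` positions and at least `N`
(position, length) pairs of repeats ended by a mismatch and starting in `P`. -/
def Good (K n k N : ℕ) : Prop :=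
  ∃ (f : ℕ → ℕ) (P : Finset ℕ) (R : Finset (ℕ × ℕ)), (∀ x, f x < K) ∧ (∀ p ∈ P, p < n) ∧
    P.card ≤ k ∧ (∀ q ∈ R, q.1 ∈ P ∧ Rep n f q.1 q.2) ∧ N ≤ R.card

theorem good_base : Good 1 1 0 0 :=
  ⟨fun _ => 0, ∅, ∅, by simp, by simp, by simp, by simp, by simp⟩

theorem good_step {K n k N : ℕ} (m : ℕ) (hm : 0 < m) (h : Good K n k N) :
    Good ((2 * m + 1) + K) (n * ((2 * m + 1) * (2 * m + 1)))
      (k * ((2 * m + 1) * (2 * m + 1)) + n * m) (N * ((2 * m + 1) * (2 * m + 1)) + n * (m * m)) := by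
  obtain ⟨f, P, R, hf, hPn, hPk, hR, hN⟩ := h
  obtain ⟨w, hw⟩ : ∃ w, w = 2 * m + 1 := ⟨_, rfl⟩
  rw [← hw]
  have hw2 : 2 * w ≤ w * w := Nat.mul_le_mul_right w (by omega)
  have hb : 0 < w * w := by omega
  have hlift : ∀ q ∈ R, ∀ o < w * w, ∃ y, (w * w) * q.2 ≤ y + o ∧ y + o < (w * w) * (q.2 + 1) ∧
      Rep (n * (w * w)) (enc (w * w) (Blk w) f) (q.1 * (w * w) + o) y := by
    intro q hq o ho
    exact lift_Blk K w (by omega) f hf n q.1 q.2 o ho (hR q hq).2
  choose! g hg1 hg2 hg3 using hlift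
  -- the two families of positions
  let P1 : Finset ℕ := (P ×ˢ Finset.range (w * w)).image (fun z => z.1 * (w * w) + z.2)
  let P2 : Finset ℕ := (Finset.range n ×ˢ Finset.range m).image (fun z => z.1 * (w * w) + z.2)
  let R1 : Finset (ℕ × ℕ) := (R ×ˢ Finset.range (w * w)).image
    (fun z => (z.1.1 * (w * w) + z.2, g z.1 z.2))
  let R2 : Finset (ℕ × ℕ) := (Finset.range n ×ˢ (Finset.range m ×ˢ Finset.range m)).image
    (fun z => (z.1 * (w * w) + z.2.1, (m + z.2.2) + 1 - z.2.1))
  have huniq : ∀ {I J x y : ℕ}, x < w * w → y < w * w → I * (w * w) + x = J * (w * w) + y →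
      I = J ∧ x = y := by
    intro I J x y hx hy hxy
    have h1 := div_mod_row (r := I) hx
    have h2 := div_mod_row (r := J) hy
    rw [hxy] at h1
    exact ⟨h1.1.symm.trans h2.1, h1.2.symm.trans h2.2⟩
  have hbound : ∀ {I x : ℕ}, I < n → x < w * w → I * (w * w) + x < n * (w * w) := by
    intro I x hI hx
    have h1 : (I + 1) * (w * w) ≤ n * (w * w) := Nat.mul_le_mul_right _ (by omega)
    have h2 : (I + 1) * (w * w) = I * (w * w) + w * w := by ring
    omega
  refine ⟨enc (w * w) (Blk w) f, P1 ∪ P2, R1 ∪ R2, ?_, ?_, ?_, ?_, ?_⟩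
  · intro x
    exact Blk_lt (by omega) (hf _)
  · intro p hp
    rcases Finset.mem_union.1 hp with hp | hp
    · obtain ⟨z, hz, rfl⟩ := Finset.mem_image.1 hp
      rw [Finset.mem_product, Finset.mem_range] at hz
      exact hbound (hPn _ hz.1) hz.2
    · obtain ⟨z, hz, rfl⟩ := Finset.mem_image.1 hp
      rw [Finset.mem_product, Finset.mem_range, Finset.mem_range] at hz
      exact hbound hz.1 (by omega)
  · refine (Finset.card_union_le _ _).trans (Nat.add_le_add ?_ ?_)
    · refine Finset.card_image_le.trans ?_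
      rw [Finset.card_product, Finset.card_range]
      exact Nat.mul_le_mul_right _ hPk
    · refine Finset.card_image_le.trans ?_
      rw [Finset.card_product, Finset.card_range, Finset.card_range]
  · intro q hq
    rcases Finset.mem_union.1 hq with hq | hq
    · obtain ⟨z, hz, rfl⟩ := Finset.mem_image.1 hq
      rw [Finset.mem_product, Finset.mem_range] at hz
      refine ⟨Finset.mem_union_left _ (Finset.mem_image.2 ⟨(z.1.1, z.2), ?_, rfl⟩), ?_⟩
      · rw [Finset.mem_product, Finset.mem_range]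
        exact ⟨(hR _ hz.1).1, hz.2⟩
      · exact hg3 _ hz.1 _ hz.2
    · obtain ⟨z, hz, rfl⟩ := Finset.mem_image.1 hq
      rw [Finset.mem_product, Finset.mem_product, Finset.mem_range, Finset.mem_range,
        Finset.mem_range] at hz
      refine ⟨Finset.mem_union_right _ (Finset.mem_image.2 ⟨(z.1, z.2.1), ?_, rfl⟩), ?_⟩
      · rw [Finset.mem_product, Finset.mem_range, Finset.mem_range]
        exact ⟨hz.1, hz.2.1⟩
      · exact blockRep w f n z.1 z.2.1 (m + z.2.2) hz.1 (by omega) (by omega)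
  · rw [Finset.card_union_of_disjoint]
    · refine Nat.add_le_add ?_ ?_
      · rw [Finset.card_image_of_injOn, Finset.card_product, Finset.card_range]
        · exact Nat.mul_le_mul_right _ hN
        · intro z hz z' hz' heq
          rw [Finset.mem_coe, Finset.mem_product, Finset.mem_range] at hz hz'
          simp only [Prod.mk.injEq] at heq
          obtain ⟨h1, h2⟩ := huniq hz.2 hz'.2 heq.1
          have a1 := hg1 _ hz.1 _ hz.2
          have a2 := hg2 _ hz.1 _ hz.2
          have b1 := hg1 _ hz'.1 _ hz'.2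
          have b2 := hg2 _ hz'.1 _ hz'.2
          rw [← heq.2, ← h2] at b1 b2
          have c1 : z.1.2 < z'.1.2 + 1 := by
            by_contra hc
            have := Nat.mul_le_mul_left (w * w) (Nat.le_of_not_lt hc)
            omega
          have c2 : z'.1.2 < z.1.2 + 1 := by
            by_contra hc
            have := Nat.mul_le_mul_left (w * w) (Nat.le_of_not_lt hc)
            omega
          exact Prod.ext (Prod.ext h1 (by omega)) h2
      · rw [Finset.card_image_of_injOn, Finset.card_product, Finset.card_product,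
          Finset.card_range, Finset.card_range]
        intro z hz z' hz' heq
        rw [Finset.mem_coe, Finset.mem_product, Finset.mem_product, Finset.mem_range,
          Finset.mem_range, Finset.mem_range] at hz hz'
        simp only [Prod.mk.injEq] at heq
        obtain ⟨h1, h2⟩ := huniq (by omega) (by omega) heq.1
        exact Prod.ext h1 (Prod.ext h2 (by omega))
    · rw [Finset.disjoint_left]
      intro q hq1 hq2
      obtain ⟨z, hz, rfl⟩ := Finset.mem_image.1 hq1
      obtain ⟨z', hz', heq⟩ := Finset.mem_image.1 hq2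
      rw [Finset.mem_product, Finset.mem_range] at hz
      rw [Finset.mem_product, Finset.mem_product, Finset.mem_range, Finset.mem_range,
        Finset.mem_range] at hz'
      simp only [Prod.mk.injEq] at heq
      obtain ⟨h1, h2⟩ := huniq (by omega) hz.2 heq.1
      have a1 := hg1 _ hz.1 _ hz.2
      have hl : 0 < z.1.2 := (hR _ hz.1).2.1
      have : w * w ≤ w * w * z.1.2 := Nat.le_mul_of_pos_right _ hl
      omega

theorem good_iter (m : ℕ) (hm : 0 < m) (L : ℕ) :
    Good (1 + L * (2 * m + 1)) (((2 * m + 1) * (2 * m + 1)) ^ L)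
      (L * m * ((2 * m + 1) * (2 * m + 1)) ^ (L - 1))
      (L * (m * m) * ((2 * m + 1) * (2 * m + 1)) ^ (L - 1)) := by
  induction L with
  | zero => simpa using good_base
  | succ L ih =>
    have h := good_step m hm ih
    rcases Nat.eq_zero_or_pos L with h0 | h0
    · subst h0
      convert h using 1 <;> simp [Nat.add_comm]
    · obtain ⟨L', rfl⟩ : ∃ L', L = L' + 1 := ⟨L - 1, by omega⟩
      have e1 : 1 + (L' + 1 + 1) * (2 * m + 1) = 2 * m + 1 + (1 + (L' + 1) * (2 * m + 1)) := by ring
      have e2 : ((2 * m + 1) * (2 * m + 1)) ^ (L' + 1 + 1) =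
        ((2 * m + 1) * (2 * m + 1)) ^ (L' + 1) * ((2 * m + 1) * (2 * m + 1)) := by ring
      have e3 : (L' + 1 + 1) * m * ((2 * m + 1) * (2 * m + 1)) ^ (L' + 1 + 1 - 1) =
        (L' + 1) * m * ((2 * m + 1) * (2 * m + 1)) ^ (L' + 1 - 1) * ((2 * m + 1) * (2 * m + 1)) +
          ((2 * m + 1) * (2 * m + 1)) ^ (L' + 1) * m := by
        simp only [Nat.add_sub_cancel]
        ring
      have e4 : (L' + 1 + 1) * (m * m) * ((2 * m + 1) * (2 * m + 1)) ^ (L' + 1 + 1 - 1) =
        (L' + 1) * (m * m) * ((2 * m + 1) * (2 * m + 1)) ^ (L' + 1 - 1) *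
          ((2 * m + 1) * (2 * m + 1)) + ((2 * m + 1) * (2 * m + 1)) ^ (L' + 1) * (m * m) := by
        simp only [Nat.add_sub_cancel]
        ring
      rw [e1, e2, e3, e4]
      exact h

/-- Binary code word of the letter `a < h`: `1^h 0` followed by the unary code of `a`. -/
def Bin (h a x : ℕ) : Bool := decide (x < h ∨ x = h + 1 + a)

theorem lift_Bin (K h : ℕ) (hK : K ≤ h) (hh : 2 ≤ h) (f : ℕ → ℕ) (hf : ∀ x, f x < K)
    (n i l o : ℕ) (ho : o ≤ h) (hrep : Rep n f i l) :
    ∃ y, (2 * h + 2) * l ≤ y + o ∧ y + o < (2 * h + 2) * (l + 1) ∧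
      Rep (n * (2 * h + 2)) (enc (2 * h + 2) (Bin h) f) (i * (2 * h + 2) + o) y := by
  refine lift K (2 * h + 2) (h + 1) h (Bin h) (fun t => decide (t < h)) (by omega) (by omega)
    ?_ ?_ ?_ ?_ f hf n i l o ho hrep
  · intro a a' ha ha' hne
    refine ⟨h + 1 + min a a', by omega, by omega, ?_, ?_⟩
    · intro t ht
      unfold Bin
      rw [decide_eq_decide]
      omega
    · unfold Bin
      intro hcon
      rw [decide_eq_decide] at hcon
      omega
  · intro a _ t ht
    unfold Bin
    simp only [decide_eq_decide]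
    omega
  · intro a a' o ha ha' ho1 ho2
    by_cases h1 : o ≤ h
    · refine ⟨h - o, by omega, ?_⟩
      rw [if_pos (by omega)]
      unfold Bin
      intro hcon
      simp only [decide_eq_decide] at hcon
      omega
    · by_cases h2 : o = h + 1 + a
      · refine ⟨1, by omega, ?_⟩
        rw [if_pos (by omega)]
        unfold Bin
        intro hcon
        simp only [decide_eq_decide] at hcon
        omega
      · refine ⟨0, by omega, ?_⟩
        rw [if_pos (by omega)]
        unfold Bin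
        intro hcon
        simp only [decide_eq_decide] at hcon
        omega
  · intro a a' ha ha' hcon
    have := hcon (h + 1 + a) (by omega) (by omega)
    unfold Bin at this
    rw [decide_eq_decide] at this
    omega

theorem good_binary {K n k N : ℕ} (h : ℕ) (hK : K ≤ h) (hh : 2 ≤ h) (hG : Good K n k N) :
    ∃ (f : ℕ → Bool) (P : Finset ℕ) (R : Finset (ℕ × ℕ)), (∀ p ∈ P, p < n * (2 * h + 2)) ∧
      P.card ≤ k * (h + 1) ∧ (∀ q ∈ R, q.1 ∈ P ∧ Rep (n * (2 * h + 2)) f q.1 q.2) ∧
      N * (h + 1) ≤ R.card := by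
  obtain ⟨f, P, R, hf, hPn, hPk, hR, hN⟩ := hG
  obtain ⟨b, hb⟩ : ∃ b, b = 2 * h + 2 := ⟨_, rfl⟩
  have hlift : ∀ q ∈ R, ∀ o < h + 1, ∃ y, b * q.2 ≤ y + o ∧ y + o < b * (q.2 + 1) ∧
      Rep (n * b) (enc b (Bin h) f) (q.1 * b + o) y := by
    intro q hq o ho
    rw [hb]
    exact lift_Bin K h hK hh f hf n q.1 q.2 o (by omega) (hR q hq).2
  rw [← hb]
  choose! g hg1 hg2 hg3 using hlift
  have huniq : ∀ {I J x y : ℕ}, x < b → y < b → I * b + x = J * b + y → I = J ∧ x = y := by
    intro I J x y hx hy hxy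
    have h1 := div_mod_row (r := I) hx
    have h2 := div_mod_row (r := J) hy
    rw [hxy] at h1
    exact ⟨h1.1.symm.trans h2.1, h1.2.symm.trans h2.2⟩
  refine ⟨enc b (Bin h) f, (P ×ˢ Finset.range (h + 1)).image (fun z => z.1 * b + z.2),
    (R ×ˢ Finset.range (h + 1)).image (fun z => (z.1.1 * b + z.2, g z.1 z.2)), ?_, ?_, ?_, ?_⟩
  · intro p hp
    obtain ⟨z, hz, rfl⟩ := Finset.mem_image.1 hp
    rw [Finset.mem_product, Finset.mem_range] at hz
    have h1 : (z.1 + 1) * b ≤ n * b := Nat.mul_le_mul_right _ (hPn _ hz.1)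
    have h2 : (z.1 + 1) * b = z.1 * b + b := by ring
    have h3 : z.2 < b := by omega
    omega
  · refine Finset.card_image_le.trans ?_
    rw [Finset.card_product, Finset.card_range]
    exact Nat.mul_le_mul_right _ hPk
  · intro q hq
    obtain ⟨z, hz, rfl⟩ := Finset.mem_image.1 hq
    rw [Finset.mem_product, Finset.mem_range] at hz
    refine ⟨Finset.mem_image.2 ⟨(z.1.1, z.2), ?_, rfl⟩, hg3 _ hz.1 _ hz.2⟩
    rw [Finset.mem_product, Finset.mem_range]
    exact ⟨(hR _ hz.1).1, hz.2⟩
  · rw [Finset.card_image_of_injOn, Finset.card_product, Finset.card_range]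
    · exact Nat.mul_le_mul_right _ hN
    · intro z hz z' hz' heq
      rw [Finset.mem_coe, Finset.mem_product, Finset.mem_range] at hz hz'
      simp only [Prod.mk.injEq] at heq
      obtain ⟨h1, h2⟩ := huniq (by omega) (by omega) heq.1
      have a1 := hg1 _ hz.1 _ hz.2
      have a2 := hg2 _ hz.1 _ hz.2
      have b1 := hg1 _ hz'.1 _ hz'.2
      have b2 := hg2 _ hz'.1 _ hz'.2
      rw [← heq.2, ← h2] at b1 b2
      have c1 : z.1.2 < z'.1.2 + 1 := by
        by_contra hc
        have := Nat.mul_le_mul_left b (Nat.le_of_not_lt hc)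
        omega
      have c2 : z'.1.2 < z.1.2 + 1 := by
        by_contra hc
        have := Nat.mul_le_mul_left b (Nat.le_of_not_lt hc)
        omega
      exact Prod.ext (Prod.ext h1 (by omega)) h2

theorem poly_bound (L : ℕ) : L * (8 * L ^ 2 + 9 * L + 4) ≤ 8 * 16 ^ L := by
  induction L with
  | zero => simp
  | succ L ih =>
    have h1 : 1 ≤ 16 ^ L := Nat.one_le_pow _ _ (by norm_num)
    have h2 : 16 ^ (L + 1) = 16 * 16 ^ L := by ring
    rw [h2]
    nlinarith [sq_nonneg L, Nat.zero_le (L ^ 3), Nat.zero_le L]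

theorem size_bound (L m : ℕ) (hm : m = 16 ^ L) (n : ℕ)
    (hn : n = ((2 * m + 1) * (2 * m + 1)) ^ L * (2 * (1 + L * (2 * m + 1)) + 2)) :
    n ≤ 2 ^ (8 * L ^ 2 + 9 * L + 4) := by
  have hm1 : 1 ≤ m := by
    rw [hm]; exact Nat.one_le_pow _ _ (by norm_num)
  have hm2 : m = 2 ^ (4 * L) := by
    rw [hm, pow_mul]; norm_num
  have hw : 2 * m + 1 ≤ 2 ^ (4 * L + 2) := by
    rw [pow_add, ← hm2]; omega
  have hb : (2 * m + 1) * (2 * m + 1) ≤ 2 ^ (8 * L + 4) := by
    calc (2 * m + 1) * (2 * m + 1) ≤ 2 ^ (4 * L + 2) * 2 ^ (4 * L + 2) := Nat.mul_le_mul hw hw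
      _ = 2 ^ (8 * L + 4) := by rw [← pow_add]; congr 1; ring
  have hn0 : ((2 * m + 1) * (2 * m + 1)) ^ L ≤ 2 ^ ((8 * L + 4) * L) := by
    rw [pow_mul]
    exact Nat.pow_le_pow_left hb L
  have hL : L ≤ 2 ^ L := Nat.lt_two_pow_self.le
  have hh : 2 * (1 + L * (2 * m + 1)) + 2 ≤ 2 ^ (5 * L + 4) := by
    have h1 : L * (2 * m + 1) ≤ 2 ^ L * 2 ^ (4 * L + 2) := Nat.mul_le_mul hL hw
    have h2 : 2 ^ L * 2 ^ (4 * L + 2) = 2 ^ (5 * L + 2) := by rw [← pow_add]; congr 1; ring
    have h3 : 2 ^ (5 * L + 4) = 4 * 2 ^ (5 * L + 2) := by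
      rw [show 5 * L + 4 = (5 * L + 2) + 2 by ring, pow_add _ (5 * L + 2) 2]; ring
    have h4 : 4 ≤ 2 ^ (5 * L + 2) := by
      calc 4 = 2 ^ 2 := by norm_num
        _ ≤ 2 ^ (5 * L + 2) := Nat.pow_le_pow_right (by norm_num) (by omega)
    rw [h2] at h1
    rw [h3]
    omega
  rw [hn]
  calc _ ≤ 2 ^ ((8 * L + 4) * L) * 2 ^ (5 * L + 4) := Nat.mul_le_mul hn0 hh
    _ = 2 ^ (8 * L ^ 2 + 9 * L + 4) := by rw [← pow_add]; congr 1; ring

/-- **Negative answer to Q1, over the binary alphabet**: for every constant `C` there are a binary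
string `s[1..n]` and a set `P` of positions such that more than `C * (n + |P| * log₂ n)` right closed
repeats `s[i..j]` start at positions `i ∈ P`. -/
theorem result : ∀ C : ℝ, ∃ (n : ℕ) (s : ℕ → Bool) (P : Finset ℕ), 1 ≤ n ∧ P ⊆ Finset.Icc 1 n ∧
    C * ((n : ℝ) + (P.card : ℝ) * Real.logb 2 (n : ℝ)) <
      ({q : ℕ × ℕ | q.1 ∈ P ∧ RightClosedRepeat n s q.1 q.2}.ncard : ℝ) := by
  intro C
  obtain ⟨L, hL⟩ := exists_nat_gt (max (36 * C) 1)
  have hLC : 36 * C < (L : ℝ) := lt_of_le_of_lt (le_max_left _ _) hL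
  have hL1 : (1 : ℝ) < (L : ℝ) := lt_of_le_of_lt (le_max_right _ _) hL
  have hLpos : 0 < L := by
    have : (0 : ℝ) < (L : ℝ) := by linarith
    exact_mod_cast this
  obtain ⟨m, hm⟩ : ∃ m, m = 16 ^ L := ⟨_, rfl⟩
  have hm1 : 1 ≤ m := by
    rw [hm]; exact Nat.one_le_pow _ _ (by norm_num)
  have hgood := good_iter m (by omega) L
  have hh2 : 2 ≤ 1 + L * (2 * m + 1) := by
    have : 0 < L * (2 * m + 1) := Nat.mul_pos hLpos (by omega)
    omega
  obtain ⟨f, P, R, hP, hPk, hR, hN⟩ := good_binary (1 + L * (2 * m + 1)) le_rfl hh2 hgood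
  obtain ⟨n, hn⟩ : ∃ n, n = ((2 * m + 1) * (2 * m + 1)) ^ L * (2 * (1 + L * (2 * m + 1)) + 2) :=
    ⟨_, rfl⟩
  have hsize := size_bound L m hm n hn
  rw [← hn] at hP hR
  have hn1 : 1 ≤ n := by
    rw [hn]
    exact Nat.mul_pos (pow_pos (by positivity) _) (by omega)
  refine ⟨n, fun x => f (x - 1), P.image (· + 1), hn1, ?_, ?_⟩
  · intro p hp
    obtain ⟨x, hx, rfl⟩ := Finset.mem_image.1 hp
    rw [Finset.mem_Icc]
    have := hP x hx
    omega
  -- lower bound for the number of right closed repeats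
  have hcount : (R.card : ℝ) ≤
      ({q : ℕ × ℕ | q.1 ∈ P.image (· + 1) ∧
        RightClosedRepeat n (fun x => f (x - 1)) q.1 q.2}.ncard : ℝ) := by
    have hfin : ({q : ℕ × ℕ | q.1 ∈ P.image (· + 1) ∧
        RightClosedRepeat n (fun x => f (x - 1)) q.1 q.2}).Finite := by
      refine Set.Finite.subset (Finset.finite_toSet ((P.image (· + 1)) ×ˢ Finset.Icc 1 n)) ?_
      intro q hq
      rw [Finset.mem_coe, Finset.mem_product, Finset.mem_Icc]
      obtain ⟨h1, h2, h3, h4, _⟩ := hq
      exact ⟨h1, by omega, h4⟩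
    have hsub : ((R.image (fun q => (q.1 + 1, q.1 + q.2)) : Finset (ℕ × ℕ)) : Set (ℕ × ℕ)) ⊆
        {q : ℕ × ℕ | q.1 ∈ P.image (· + 1) ∧
          RightClosedRepeat n (fun x => f (x - 1)) q.1 q.2} := by
      intro q hq
      rw [Finset.mem_coe, Finset.mem_image] at hq
      obtain ⟨z, hz, rfl⟩ := hq
      exact ⟨Finset.mem_image_of_mem _ (hR z hz).1, (hR z hz).2.toRCR⟩
    have hle := Set.ncard_le_ncard hsub hfin
    rw [Set.ncard_coe_finset, Finset.card_image_of_injective] at hle
    · exact_mod_cast hle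
    · intro q q' h
      simp only [Prod.mk.injEq] at h
      exact Prod.ext (by omega) (by omega)
  refine lt_of_lt_of_le ?_ hcount
  have hPcard : (P.image (· + 1)).card ≤ P.card := Finset.card_image_le
  -- real number estimates
  obtain ⟨B, hB⟩ : ∃ B : ℝ, B = (((2 * m + 1) * (2 * m + 1) : ℕ) : ℝ) ^ (L - 1) := ⟨_, rfl⟩
  have hBpos : 0 < B := by rw [hB]; positivity
  obtain ⟨H, hH⟩ : ∃ H : ℝ, H = ((1 + L * (2 * m + 1) : ℕ) : ℝ) + 1 := ⟨_, rfl⟩
  have hHpos : 0 < H := by rw [hH]; positivity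
  have hmpos : (1 : ℝ) ≤ (m : ℝ) := by exact_mod_cast hm1
  have hnR : (n : ℝ) = 2 * B * (2 * m + 1) ^ 2 * H := by
    have e : L = (L - 1) + 1 := by omega
    rw [hn, hB, hH]
    have e2 : ((2 * m + 1) * (2 * m + 1)) ^ L =
      ((2 * m + 1) * (2 * m + 1)) ^ (L - 1) * ((2 * m + 1) * (2 * m + 1)) := by
      conv_lhs => rw [e]
      rw [pow_succ]
    rw [e2]
    push_cast
    ring
  have hkR : ((P.image (· + 1)).card : ℝ) ≤ L * m * B * H := by
    have h1 : ((P.image (· + 1)).card : ℝ) ≤
        ((L * m * ((2 * m + 1) * (2 * m + 1)) ^ (L - 1) * (1 + L * (2 * m + 1) + 1) : ℕ) : ℝ) := by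
      exact_mod_cast hPcard.trans hPk
    refine h1.trans (le_of_eq ?_)
    rw [hB, hH]
    push_cast
    ring
  have hNR : (L : ℝ) * (m * m) * B * H ≤ (R.card : ℝ) := by
    have h1 : ((L * (m * m) * ((2 * m + 1) * (2 * m + 1)) ^ (L - 1) * (1 + L * (2 * m + 1) + 1) : ℕ) : ℝ)
        ≤ (R.card : ℝ) := by
      exact_mod_cast hN
    refine (le_of_eq ?_).trans h1
    rw [hB, hH]
    push_cast
    ring
  have hlog : Real.logb 2 (n : ℝ) ≤ ((8 * L ^ 2 + 9 * L + 4 : ℕ) : ℝ) := by
    rw [Real.logb_le_iff_le_rpow (by norm_num) (by exact_mod_cast hn1), Real.rpow_natCast]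
    exact_mod_cast hsize
  have hlog0 : 0 ≤ Real.logb 2 (n : ℝ) :=
    Real.logb_nonneg (by norm_num) (by exact_mod_cast hn1)
  have hpoly : (L : ℝ) * ((8 * L ^ 2 + 9 * L + 4 : ℕ) : ℝ) ≤ 8 * m := by
    have := poly_bound L
    rw [← hm] at this
    exact_mod_cast this
  have hLlog : (L : ℝ) * Real.logb 2 (n : ℝ) ≤ 8 * m :=
    (mul_le_mul_of_nonneg_left hlog (by linarith)).trans hpoly
  have hklog : ((P.image (· + 1)).card : ℝ) * Real.logb 2 (n : ℝ) ≤ n := by
    calc ((P.image (· + 1)).card : ℝ) * Real.logb 2 (n : ℝ)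
        ≤ (L * m * B * H) * Real.logb 2 (n : ℝ) := mul_le_mul_of_nonneg_right hkR hlog0
      _ = (m * B * H) * (L * Real.logb 2 (n : ℝ)) := by ring
      _ ≤ (m * B * H) * (8 * m) := mul_le_mul_of_nonneg_left hLlog (by positivity)
      _ ≤ n := by
        rw [hnR]
        have : (0 : ℝ) ≤ B * H := by positivity
        nlinarith [mul_nonneg this (by linarith : (0 : ℝ) ≤ (m : ℝ))]
  have hmain : C * ((n : ℝ) + ((P.image (· + 1)).card : ℝ) * Real.logb 2 (n : ℝ)) <
      (L : ℝ) * (m * m) * B * H := by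
    rcases le_or_gt C 0 with hC | hC
    · have h1 : 0 ≤ (n : ℝ) + ((P.image (· + 1)).card : ℝ) * Real.logb 2 (n : ℝ) := by positivity
      have h2 : C * ((n : ℝ) + ((P.image (· + 1)).card : ℝ) * Real.logb 2 (n : ℝ)) ≤ 0 :=
        mul_nonpos_of_nonpos_of_nonneg hC h1
      have h3 : 0 < (L : ℝ) * (m * m) * B * H := by positivity
      linarith
    · have h1 : C * ((n : ℝ) + ((P.image (· + 1)).card : ℝ) * Real.logb 2 (n : ℝ)) ≤ C * (2 * n) :=
        mul_le_mul_of_nonneg_left (by linarith) hC.le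
      refine h1.trans_lt ?_
      rw [hnR]
      have h2 : (2 * (m : ℝ) + 1) ^ 2 ≤ 9 * (m * m) := by nlinarith
      have h3 : 0 < B * H := by positivity
      have h4 : C * (2 * (2 * B * (2 * m + 1) ^ 2 * H)) ≤ 36 * C * ((m * m) * (B * H)) := by
        have := mul_le_mul_of_nonneg_left h2 (by positivity : (0 : ℝ) ≤ 4 * C * (B * H))
        nlinarith
      refine h4.trans_lt ?_
      have h5 : 0 < (m : ℝ) * m * (B * H) := by positivity
      have := mul_lt_mul_of_pos_right hLC h5
      nlinarith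
  exact hmain.trans_le hNR

end Pool.Agent.Results.MP_b69f9e_co.BinaryDisproof
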